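import Pool.Agent.Lib.MP_d69888_lc.Idx

namespace Pool.Agent.Results.MP_d69888_lc.NoDelta3Index

open Pool.Agent.Lib.MP_d69888_lc

/-- No total function that is an iterated limit of a computable function sends every index of a
tree with only computable paths to an index of a presentation of `L(T)`, even on the trees for
which `L(T)` has a computable presentation. -/
theorem result (F : ℕ → ℕ) (hF : DoubleLimit F) :
    ∃ (c : ℕ) (T : Set (List Bool)), IsTree T ∧ Decides c (· ∈ T) ∧
      (∀ f, IsPath T f → Computable f) ∧
      (∃ R : ℕ → ℕ → Prop, ComputablePred (fun x : ℕ × ℕ => R x.1 x.2) ∧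
        Presents T (fun _ => True) R) ∧
      ¬ ∃ R : ℕ → ℕ → Prop, Decides (F c) (fun x : ℕ × ℕ => R x.1 x.2) ∧
        Presents T (fun _ => True) R :=
  no_index_map F hF

end Pool.Agent.Results.MP_d69888_lc.NoDelta3Index
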