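import Pool.Agent.Lib.MP_d69888_lc.QMain

namespace Pool.Agent.Results.MP_d69888_lc.QuasiPAC

open Pool.Agent.Lib.MP_d69888_lc.Q

/-- There is a quasi-PAC tree `T` such that no computable relation on a computable set of numbers
is isomorphic to the order `L(T)`. -/
theorem result : ∃ T : Set (List Bool), QuasiPAC T ∧
    ¬ ∃ (D : ℕ → Prop) (R : ℕ → ℕ → Prop), ComputablePred D ∧
      ComputablePred (fun x : ℕ × ℕ => R x.1 x.2) ∧
      ∃ e : {n : ℕ // D n} ≃ Pts T, ∀ a b : {n : ℕ // D n}, R a.1 b.1 ↔ PLt (e a) (e b) :=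
  main

end Pool.Agent.Results.MP_d69888_lc.QuasiPAC
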